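import Pool.Agent.Helper61.BT.Goals

set_option autoImplicit false

namespace Pool.Agent.Helper37.BT

open Pool.Agent.Helper27.VF Pool.Agent.Helper38.VF Pool.Agent.Helper61.BT

universe u

/-- INB. -/
theorem inb (hDvb : DvbStmt.{u}) (hTrs : TrsStmt.{u}) (hTfb : TfbStmt.{u})
    (hFac : FacStmt.{u}) : InbStmt.{u} := by
  intro k
  induction k with
  | zero =>
    intro A W _ _ G G₀ w p _ _
    exact ⟨fun i => i.elim0, fun i => i.elim0, fun i => i.elim0, fun i => i.elim0,
      fun i => i.elim0, fun M _ _ _ _ i => i.elim0⟩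
  | succ k ih =>
    intro A W _ _ G G₀ w p h hcon
    have hA : (Set.univ : Set A).Infinite := by
      have h1 := (hFac A W G G₀ w p h).2.2 Set.univ
        (fun hf => h.nonp _ hf Filter.univ_mem) (by
          have : {x : W | x ∈ (Set.univ : Set W) ∧ ∃ y, y ∉ (Set.univ : Set W) ∧ G₀.Adj x y} = ∅ := by
            ext x
            simp
          rw [this]
          exact Set.finite_empty)
      exact h1.mono fun _ _ => trivial
    have hex : ∃ m : ℕ, ∃ c, IsCut G c ∧ (sep c).ncard = m ∧ ∃ a b : A, Dis p c a b := by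
      by_contra hne
      refine hcon ⟨Set.univ, hA, fun a _ b _ c hc hd => hne ⟨_, c, hc, rfl, a, b, hd⟩⟩
    obtain ⟨m, hm, hmin⟩ : ∃ m : ℕ, (∃ c, IsCut G c ∧ (sep c).ncard = m ∧ ∃ a b : A, Dis p c a b) ∧
        ∀ m' < m, ¬ ∃ c, IsCut G c ∧ (sep c).ncard = m' ∧ ∃ a b : A, Dis p c a b := by
      classical
      exact ⟨Nat.find hex, Nat.find_spec hex, fun m' hm' => Nat.find_min hex hm'⟩
    have hMn : Mn A G p m := by
      intro c hc a b hd
      by_contra hlt
      exact hmin _ (not_le.1 hlt) ⟨c, hc, rfl, a, b, hd⟩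
    have hSS : (SS A G p m).Nonempty := by
      obtain ⟨c, h1, h2, h3⟩ := hm
      exact ⟨c, h1, h2, h3⟩
    have hstp := hDvb A W G G₀ w p h m hMn hSS
    obtain ⟨W', inst, G', G₀', w', p', hS, hC⟩ := hTfb A W G G₀ w p h m hMn
    exact hTrs A (BB A G p m) hstp k
      (ih (BB A G p m) W' G' G₀' w' p' hS fun hc => hcon (hC hc))

end Pool.Agent.Helper37.BT
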